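import Pool.Agent.PrmO.Cross

/-!
# MP_5082c5_lc, one input head, nondeterministic: counting
-/

namespace Pool.Agent.PrmO

open Finset Pool.Agent.MP_5082c5_lc Pool.Agent.PrmH

variable {Q : Type}

/-- Full all-prime rectangles. -/
theorem rect_full (n j m : ℕ) (hm : m ≤ n / 12) (hn : 9 ≤ n) (hj : m ≤ j) (hj2 : j + m ≤ n)
    (X Y : Finset (List Bool)) (hX : ∀ x ∈ X, x.length = j) (hY : ∀ y ∈ Y, y.length = n - j)
    (h : ∀ x ∈ X, ∀ y ∈ Y, x ++ y ∈ PRIMES) :
    ((X.card * Y.card : ℕ) : ℝ) ≤ (2 : ℝ) ^ ((n : ℝ) - m / 2 + 9) := by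
  classical
  have hXs : X.card = ∑ a ∈ words (j - m), (X.filter (fun x => x.take (j - m) = a)).card := by
    apply Finset.card_eq_sum_card_fiberwise
    intro x hx
    have := hX x hx
    rw [Finset.mem_coe, mem_words, List.length_take]
    omega
  have hYs : Y.card = ∑ e ∈ words (n - j - m), (Y.filter (fun y => y.drop m = e)).card := by
    apply Finset.card_eq_sum_card_fiberwise
    intro y hy
    have := hY y hy
    rw [Finset.mem_coe, mem_words, List.length_drop]
    omega
  have hXi : ∀ a, ((X.filter (fun x => x.take (j - m) = a)).image (List.drop (j - m))).card =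
      (X.filter (fun x => x.take (j - m) = a)).card := by
    intro a
    apply Finset.card_image_of_injOn
    intro x hx y hy hxy
    have h1 := (Finset.mem_filter.1 hx).2
    have h2 := (Finset.mem_filter.1 hy).2
    rw [← List.take_append_drop (j - m) x, ← List.take_append_drop (j - m) y, h1, h2]
    exact congrArg _ hxy
  have hYi : ∀ e, ((Y.filter (fun y => y.drop m = e)).image (List.take m)).card =
      (Y.filter (fun y => y.drop m = e)).card := by
    intro e
    apply Finset.card_image_of_injOn
    intro x hx y hy hxy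
    have h1 := (Finset.mem_filter.1 hx).2
    have h2 := (Finset.mem_filter.1 hy).2
    rw [← List.take_append_drop m x, ← List.take_append_drop m y, h1, h2]
    exact congrArg (· ++ e) hxy
  have key : ∀ a ∈ words (j - m), ∀ e ∈ words (n - j - m),
      (((X.filter (fun x => x.take (j - m) = a)).card *
        (Y.filter (fun y => y.drop m = e)).card : ℕ) : ℝ) ≤ (2 : ℝ) ^ ((3 : ℝ) / 2 * m + 9) := by
    intro a ha e he
    rw [mem_words] at ha he
    rw [← hXi a, ← hYi e]
    apply rect_words m n hm hn a [] e
    · rw [ha, he, List.length_nil]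
      omega
    · intro x hx
      obtain ⟨x', hx', rfl⟩ := Finset.mem_image.1 hx
      have := hX x' (Finset.mem_filter.1 hx').1
      rw [List.length_drop]
      omega
    · intro y hy
      obtain ⟨y', hy', rfl⟩ := Finset.mem_image.1 hy
      have := hY y' (Finset.mem_filter.1 hy').1
      rw [List.length_take]
      omega
    · intro x hx y hy
      obtain ⟨x', hx', rfl⟩ := Finset.mem_image.1 hx
      obtain ⟨y', hy', rfl⟩ := Finset.mem_image.1 hy
      obtain ⟨hx1, hx2⟩ := Finset.mem_filter.1 hx'
      obtain ⟨hy1, hy2⟩ := Finset.mem_filter.1 hy'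
      have h1 := h x' hx1 y' hy1
      have h2 : fr a (x'.drop (j - m)) [] (y'.take m) e = x' ++ y' := by
        unfold fr
        rw [← hx2, ← hy2, List.append_nil, List.take_append_drop, List.append_assoc,
          List.take_append_drop]
      rw [h2]
      exact h1
  rw [hXs, hYs, Finset.sum_mul_sum]
  push_cast
  push_cast at key
  calc _ ≤ ∑ a ∈ words (j - m), ∑ e ∈ words (n - j - m), (2 : ℝ) ^ ((3 : ℝ) / 2 * m + 9) :=
        Finset.sum_le_sum fun a ha => Finset.sum_le_sum fun e he => key a ha e he
    _ = (2 : ℝ) ^ ((n : ℝ) - m / 2 + 9) := by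
        rw [Finset.sum_const, Finset.sum_const, card_words, card_words, nsmul_eq_mul,
          nsmul_eq_mul]
        push_cast
        rw [← Real.rpow_natCast, ← Real.rpow_natCast, ← Real.rpow_add (by norm_num),
          ← Real.rpow_add (by norm_num)]
        congr 1
        have e1 : ((j - m : ℕ) : ℝ) = (j : ℝ) - m := by
          rw [Nat.cast_sub hj]
        have e2 : ((n - j - m : ℕ) : ℝ) = (n : ℝ) - j - m := by
          rw [Nat.cast_sub (by omega), Nat.cast_sub (by omega)]
        rw [e1, e2]
        ring

/-- the code of a list of length at most `m` -/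
def code (m : ℕ) (l : List Q) : Fin m → Option Q := fun i => l[(i : ℕ)]?

theorem code_inj (m : ℕ) (l l' : List Q) (h1 : l.length ≤ m) (h2 : l'.length ≤ m)
    (h : code m l = code m l') : l = l' := by
  apply List.ext_getElem?
  intro i
  by_cases hi : i < m
  · exact congrFun h ⟨i, hi⟩
  · rw [List.getElem?_eq_none (by omega), List.getElem?_eq_none (by omega)]

/-- Words with short crossing sequences at one boundary. -/
theorem count_one [Fintype Q] (A : Aut 1 Q) (n j m k : ℕ) (hm : m ≤ n / 12) (hn : 9 ≤ n)
    (hj : m ≤ j) (hj2 : j + m ≤ n) (hA : ∀ v : List Bool, v.length = n → A.Acc v → v ∈ PRIMES)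
    (W : Finset (List Bool)) (hW : ∀ w ∈ W, w.length = n ∧ ∃ l : List Q, l.length ≤ k ∧
      PL A n (w.take j) true A.start 0 l ∧ PR A n j (w.drop j) true A.start 0 l) :
    (W.card : ℝ) ≤ ((Fintype.card Q : ℝ) + 1) ^ k * (2 : ℝ) ^ ((n : ℝ) - m / 2 + 9) := by
  classical
  choose! l hl using fun w hw => (hW w hw).2
  have h0 : (W.card : ℝ) = ∑ κ : Fin k → Option Q,
      (((W.filter (fun w => code k (l w) = κ)).card : ℕ) : ℝ) := by
    rw [← Nat.cast_sum]
    congr 1
    exact Finset.card_eq_sum_card_fiberwise (fun w _ => Finset.mem_coe.2 (Finset.mem_univ _))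
  have h1 : ∀ κ : Fin k → Option Q, (((W.filter (fun w => code k (l w) = κ)).card : ℕ) : ℝ) ≤
      (2 : ℝ) ^ ((n : ℝ) - m / 2 + 9) := by
    intro κ
    rcases (W.filter (fun w => code k (l w) = κ)).eq_empty_or_nonempty with he | ⟨w0, hw0⟩
    · rw [he]
      simp only [Finset.card_empty, Nat.cast_zero]
      positivity
    · obtain ⟨hw1, hw2⟩ := Finset.mem_filter.1 hw0
      set X := (words j).filter (fun u => PL A n u true A.start 0 (l w0)) with hXdef
      set Y := (words (n - j)).filter (fun v => PR A n j v true A.start 0 (l w0)) with hYdef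
      have h2 : ((X.card * Y.card : ℕ) : ℝ) ≤ (2 : ℝ) ^ ((n : ℝ) - m / 2 + 9) := by
        apply rect_full n j m hm hn hj hj2 X Y
        · intro x hx
          exact (mem_words _ _).1 (Finset.mem_filter.1 hx).1
        · intro y hy
          exact (mem_words _ _).1 (Finset.mem_filter.1 hy).1
        · intro x hx y hy
          obtain ⟨hx1, hx2⟩ := Finset.mem_filter.1 hx
          obtain ⟨hy1, hy2⟩ := Finset.mem_filter.1 hy
          rw [mem_words] at hx1 hy1
          have hlen : (x ++ y).length = n := by
            rw [List.length_append, hx1, hy1]; omega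
          rw [← hx1] at hy2
          obtain ⟨d, hd, ha⟩ := sound x y hlen (l w0) true A.start 0 hx2 hy2
          exact hA _ hlen (acc_of_rtg hd ha)
      refine le_trans ?_ h2
      have h3 : (W.filter (fun w => code k (l w) = κ)).card ≤ (X ×ˢ Y).card := by
        apply Finset.card_le_card_of_injOn (fun w => (w.take j, w.drop j))
        · intro w hw
          obtain ⟨h4, h5⟩ := Finset.mem_filter.1 hw
          have h6 : l w = l w0 :=
            code_inj k _ _ (hl w h4).1 (hl w0 hw1).1 (h5.trans hw2.symm)
          have h7 := (hW w h4).1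
          have h8 := hl w h4
          rw [h6] at h8
          rw [Finset.mem_coe, Finset.mem_product, hXdef, hYdef, Finset.mem_filter,
            Finset.mem_filter, mem_words, mem_words, List.length_take, List.length_drop]
          exact ⟨⟨by omega, h8.2.1⟩, ⟨by omega, h8.2.2⟩⟩
        · intro w _ w' _ hww
          obtain ⟨h4, h5⟩ := Prod.ext_iff.1 hww
          rw [← List.take_append_drop j w, ← List.take_append_drop j w']
          exact congrArg₂ (· ++ ·) h4 h5
      rw [Finset.card_product] at h3
      exact_mod_cast h3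
  rw [h0]
  refine (Finset.sum_le_sum fun κ _ => h1 κ).trans (le_of_eq ?_)
  rw [Finset.sum_const, Finset.card_univ, Fintype.card_fun, Fintype.card_option,
    Fintype.card_fin, nsmul_eq_mul]
  push_cast
  ring

/-- The counting theorem for automata with one head. -/
theorem count_all [Fintype Q] (A : Aut 1 Q) (n m k D : ℕ) (hm : m ≤ n / 12) (hn : 9 ≤ n)
    (hk : 2 * D ≤ (k + 1) * (n - 2 * m))
    (hA : ∀ v : List Bool, v.length = n → A.Acc v → v ∈ PRIMES)
    (L : Finset (List Bool)) (hL : ∀ w ∈ L, w.length = n ∧ A.AccIn w D) :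
    (L.card : ℝ) ≤ 2 * (((Fintype.card Q : ℝ) + 1) ^ k * (2 : ℝ) ^ ((n : ℝ) - m / 2 + 9)) := by
  classical
  choose! f hf using fun w hw => cross_data A w D (hL w hw).2
  set J := Finset.Ico m (n - m) with hJ
  have hJc : J.card = n - 2 * m := by rw [hJ, Nat.card_Ico]; omega
  have hJ0 : J.Nonempty := by
    rw [← Finset.card_pos, hJc]; omega
  obtain ⟨j, hjJ, hj⟩ : ∃ j ∈ J, J.card * ∑ w ∈ L, f w j ≤ L.card * D := by
    by_contra hc
    push Not at hc
    have h1 : ∑ j ∈ J, L.card * D < ∑ j ∈ J, J.card * ∑ w ∈ L, f w j :=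
      Finset.sum_lt_sum_of_nonempty hJ0 hc
    have h2 : ∑ j ∈ J, J.card * ∑ w ∈ L, f w j ≤ J.card * (L.card * D) := by
      rw [← Finset.mul_sum, Finset.sum_comm]
      apply Nat.mul_le_mul_left
      calc ∑ w ∈ L, ∑ j ∈ J, f w j ≤ ∑ w ∈ L, D := Finset.sum_le_sum fun w hw => (hf w hw).1 J
        _ = L.card * D := by rw [Finset.sum_const, smul_eq_mul]
    rw [Finset.sum_const, smul_eq_mul] at h1
    omega
  have hjm : m ≤ j ∧ j < n - m := Finset.mem_Ico.1 hjJ
  set W := L.filter (fun w => f w j ≤ k) with hWdef
  have hbad : L.card ≤ 2 * W.card := by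
    have h3 : (k + 1) * (L.filter (fun w => ¬ f w j ≤ k)).card ≤ ∑ w ∈ L, f w j := by
      calc (k + 1) * (L.filter (fun w => ¬ f w j ≤ k)).card
          = ∑ w ∈ L.filter (fun w => ¬ f w j ≤ k), (k + 1) := by
            rw [Finset.sum_const, smul_eq_mul, mul_comm]
        _ ≤ ∑ w ∈ L.filter (fun w => ¬ f w j ≤ k), f w j :=
            Finset.sum_le_sum fun w hw => by
              have := (Finset.mem_filter.1 hw).2
              omega
        _ ≤ ∑ w ∈ L, f w j :=
            Finset.sum_le_sum_of_subset (Finset.filter_subset _ _)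
    have h4 : W.card + (L.filter (fun w => ¬ f w j ≤ k)).card = L.card := by
      rw [hWdef]
      exact Finset.card_filter_add_card_filter_not _
    set b := (L.filter (fun w => ¬ f w j ≤ k)).card with hb
    rw [hJc] at hj
    have h5 : 2 * b * D ≤ L.card * D := by
      calc 2 * b * D = b * (2 * D) := by ring
        _ ≤ b * ((k + 1) * (n - 2 * m)) := Nat.mul_le_mul_left _ hk
        _ = (n - 2 * m) * ((k + 1) * b) := by ring
        _ ≤ (n - 2 * m) * ∑ w ∈ L, f w j := Nat.mul_le_mul_left _ h3
        _ ≤ L.card * D := hj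
    rcases Nat.eq_zero_or_pos D with hD | hD
    · -- no crossings at all
      subst hD
      have h6 : ∀ w ∈ L, f w j ≤ k := by
        intro w hw
        have := (hf w hw).1 {j}
        rw [Finset.sum_singleton] at this
        omega
      have h7 : b = 0 := by
        rw [hb, Finset.card_eq_zero, Finset.filter_eq_empty_iff]
        intro w hw
        push Not
        exact h6 w hw
      omega
    · have h6 : 2 * b ≤ L.card := Nat.le_of_mul_le_mul_right h5 hD
      omega
  have hmain := count_one A n j m k hm hn hjm.1 (by omega) hA W (by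
    intro w hw
    obtain ⟨h1, h2⟩ := Finset.mem_filter.1 hw
    have h3 := (hL w h1).1
    refine ⟨h3, ?_⟩
    obtain ⟨l, hl1, hl2, hl3⟩ := (hf w h1).2 j (by omega)
    rw [h3] at hl2 hl3
    exact ⟨l, by omega, hl2, hl3⟩)
  have h8 : (L.card : ℝ) ≤ 2 * W.card := by exact_mod_cast hbad
  linarith

end Pool.Agent.PrmO
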