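import Pool.Agent.PrmH.TM

/-!
# MP_5082c5_lc, one input head, nondeterministic: crossing sequences give rectangles
-/

namespace Pool.Agent.PrmO

open Finset Pool.Agent.MP_5082c5_lc Pool.Agent.PrmH

variable {Q : Type}

/-- one step of an automaton with one head, configurations as pairs (state, position) -/
def St (A : Aut 1 Q) (w : List Bool) (c d : Q × ℕ) : Prop :=
  ∃ mv : Fin 1 → Move, A.tr c.1 (fun _ => symAt w c.2) d.1 mv ∧ d.2 = newPos w.length c.2 (mv 0)

/-- a step from a position `≤ |u|`, for a word `u v` of length `n` -/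
def StL (A : Aut 1 Q) (n : ℕ) (u : List Bool) (c d : Q × ℕ) : Prop :=
  c.2 ≤ u.length ∧ ∃ mv : Fin 1 → Move, A.tr c.1 (fun _ => symAt u c.2) d.1 mv ∧
    d.2 = newPos n c.2 (mv 0)

/-- a step from a position `> j`, for a word `u v` of length `n` with `|u| = j` -/
def StR (A : Aut 1 Q) (n j : ℕ) (v : List Bool) (c d : Q × ℕ) : Prop :=
  j < c.2 ∧ ∃ mv : Fin 1 → Move, A.tr c.1 (fun _ => symAt v (c.2 - j)) d.1 mv ∧
    d.2 = newPos n c.2 (mv 0)

theorem symAt_app_left (u v : List Bool) (p : ℕ) (h : p ≤ u.length) :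
    symAt (u ++ v) p = symAt u p := by
  unfold symAt
  split_ifs with h0
  · rfl
  · rw [List.getElem?_append_left (by omega)]

theorem symAt_app_right (u v : List Bool) (p : ℕ) (h : u.length < p) :
    symAt (u ++ v) p = symAt v (p - u.length) := by
  unfold symAt
  rw [if_neg (by omega), if_neg (by omega), List.getElem?_append_right (by omega),
    show p - 1 - u.length = p - u.length - 1 by omega]

theorem st_of_stL {A : Aut 1 Q} {n : ℕ} {u v : List Bool} {c d : Q × ℕ}
    (hn : (u ++ v).length = n) (h : StL A n u c d) : St A (u ++ v) c d := by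
  obtain ⟨h1, mv, h2, h3⟩ := h
  refine ⟨mv, ?_, ?_⟩
  · rw [symAt_app_left _ _ _ h1]; exact h2
  · rw [hn]; exact h3

theorem st_of_stR {A : Aut 1 Q} {n : ℕ} {u v : List Bool} {c d : Q × ℕ}
    (hn : (u ++ v).length = n) (h : StR A n u.length v c d) : St A (u ++ v) c d := by
  obtain ⟨h1, mv, h2, h3⟩ := h
  refine ⟨mv, ?_, ?_⟩
  · rw [symAt_app_right _ _ _ h1]; exact h2
  · rw [hn]; exact h3

theorem stL_of_st {A : Aut 1 Q} {n : ℕ} {u v : List Bool} {c d : Q × ℕ}
    (hn : (u ++ v).length = n) (hc : c.2 ≤ u.length) (h : St A (u ++ v) c d) : StL A n u c d := by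
  obtain ⟨mv, h2, h3⟩ := h
  refine ⟨hc, mv, ?_, ?_⟩
  · rw [symAt_app_left _ _ _ hc] at h2; exact h2
  · rw [hn] at h3; exact h3

theorem stR_of_st {A : Aut 1 Q} {n : ℕ} {u v : List Bool} {c d : Q × ℕ}
    (hn : (u ++ v).length = n) (hc : u.length < c.2) (h : St A (u ++ v) c d) :
    StR A n u.length v c d := by
  obtain ⟨mv, h2, h3⟩ := h
  refine ⟨hc, mv, ?_, ?_⟩
  · rw [symAt_app_right _ _ _ hc] at h2; exact h2
  · rw [hn] at h3; exact h3

/-- paths that stay on the left -/
def PathL (A : Aut 1 Q) (n : ℕ) (u : List Bool) : Q × ℕ → Q × ℕ → Prop :=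
  Relation.ReflTransGen (fun c d => StL A n u c d ∧ d.2 ≤ u.length)

/-- paths that stay on the right -/
def PathR (A : Aut 1 Q) (n j : ℕ) (v : List Bool) : Q × ℕ → Q × ℕ → Prop :=
  Relation.ReflTransGen (fun c d => StR A n j v c d ∧ j < d.2)

/-- The conditions that the crossing sequence `l` imposes on the left part `u`; the first argument
tells on which side the computation is. -/
def PL (A : Aut 1 Q) (n : ℕ) (u : List Bool) : Bool → Q → ℕ → List Q → Prop
  | true, q, p, [] => ∃ c, PathL A n u (q, p) c ∧ c.1 ∈ A.acc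
  | false, _, _, [] => True
  | true, q, p, z :: l => (∃ c, PathL A n u (q, p) c ∧ StL A n u c (z, u.length + 1)) ∧
      PL A n u false z (u.length + 1) l
  | false, _, _, z :: l => PL A n u true z u.length l

/-- The conditions that the crossing sequence `l` imposes on the right part `v`. -/
def PR (A : Aut 1 Q) (n j : ℕ) (v : List Bool) : Bool → Q → ℕ → List Q → Prop
  | true, _, _, [] => True
  | false, q, p, [] => ∃ c, PathR A n j v (q, p) c ∧ c.1 ∈ A.acc
  | true, _, _, z :: l => PR A n j v false z (j + 1) l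
  | false, q, p, z :: l => (∃ c, PathR A n j v (q, p) c ∧ StR A n j v c (z, j)) ∧
      PR A n j v true z j l

theorem rtg_mono {α : Type} {r r' : α → α → Prop} (h : ∀ a b, r a b → r' a b) {a b : α}
    (hab : Relation.ReflTransGen r a b) : Relation.ReflTransGen r' a b := by
  induction hab with
  | refl => exact Relation.ReflTransGen.refl
  | tail _ h2 ih => exact ih.tail (h _ _ h2)

/-- A crossing sequence that fits both parts gives an accepting path. -/
theorem sound {A : Aut 1 Q} {n : ℕ} (u v : List Bool) (hn : (u ++ v).length = n) (l : List Q) :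
    ∀ (s : Bool) (q : Q) (p : ℕ), PL A n u s q p l → PR A n u.length v s q p l →
      ∃ d, Relation.ReflTransGen (St A (u ++ v)) (q, p) d ∧ d.1 ∈ A.acc := by
  induction l with
  | nil =>
    intro s q p h1 h2
    cases s
    · obtain ⟨c, hc, ha⟩ := h2
      exact ⟨c, rtg_mono (fun a b hab => st_of_stR hn hab.1) hc, ha⟩
    · obtain ⟨c, hc, ha⟩ := h1
      exact ⟨c, rtg_mono (fun a b hab => st_of_stL hn hab.1) hc, ha⟩
  | cons z l ih =>
    intro s q p h1 h2
    cases s
    · obtain ⟨⟨c, hc, hz⟩, h3⟩ := h2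
      obtain ⟨d, hd, ha⟩ := ih true z u.length h1 h3
      refine ⟨d, ?_, ha⟩
      exact (rtg_mono (fun a b hab => st_of_stR hn hab.1) hc).trans
        ((Relation.ReflTransGen.single (st_of_stR hn hz)).trans hd)
    · obtain ⟨⟨c, hc, hz⟩, h3⟩ := h1
      obtain ⟨d, hd, ha⟩ := ih false z (u.length + 1) h3 h2
      refine ⟨d, ?_, ha⟩
      exact (rtg_mono (fun a b hab => st_of_stL hn hab.1) hc).trans
        ((Relation.ReflTransGen.single (st_of_stL hn hz)).trans hd)

/-- Step `s` crosses the boundary between `j` and `j + 1`. -/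
def Xc (c : ℕ → Q × ℕ) (j s : ℕ) : Prop :=
  ((c s).2 = j ∧ (c (s + 1)).2 = j + 1) ∨ ((c s).2 = j + 1 ∧ (c (s + 1)).2 = j)

instance (c : ℕ → Q × ℕ) (j s : ℕ) : Decidable (Xc c j s) := by unfold Xc; infer_instance

theorem ext_left {A : Aut 1 Q} {n : ℕ} {u v : List Bool} {q q1 : Q} {p p1 : ℕ} {l : List Q}
    (h : StL A n u (q, p) (q1, p1)) (hp : p1 ≤ u.length) (h1 : PL A n u true q1 p1 l)
    (h2 : PR A n u.length v true q1 p1 l) :
    PL A n u true q p l ∧ PR A n u.length v true q p l := by
  cases l with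
  | nil =>
    obtain ⟨c, hc, ha⟩ := h1
    exact ⟨⟨c, Relation.ReflTransGen.head ⟨h, hp⟩ hc, ha⟩, trivial⟩
  | cons z l =>
    obtain ⟨⟨c, hc, hz⟩, h3⟩ := h1
    exact ⟨⟨⟨c, Relation.ReflTransGen.head ⟨h, hp⟩ hc, hz⟩, h3⟩, h2⟩

theorem ext_right {A : Aut 1 Q} {n : ℕ} {u v : List Bool} {q q1 : Q} {p p1 : ℕ} {l : List Q}
    (h : StR A n u.length v (q, p) (q1, p1)) (hp : u.length < p1)
    (h1 : PL A n u false q1 p1 l) (h2 : PR A n u.length v false q1 p1 l) :
    PL A n u false q p l ∧ PR A n u.length v false q p l := by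
  cases l with
  | nil =>
    obtain ⟨c, hc, ha⟩ := h2
    exact ⟨trivial, ⟨c, Relation.ReflTransGen.head ⟨h, hp⟩ hc, ha⟩⟩
  | cons z l =>
    obtain ⟨⟨c, hc, hz⟩, h3⟩ := h2
    exact ⟨h1, ⟨⟨c, Relation.ReflTransGen.head ⟨h, hp⟩ hc, hz⟩, h3⟩⟩

theorem newPos_near (n p : ℕ) (hp : p ≤ n + 1) (mv : Move) :
    newPos n p mv ≤ p + 1 ∧ p ≤ newPos n p mv + 1 := by
  unfold newPos
  cases mv <;> simp <;> omega

/-- Every accepting computation has a crossing sequence. -/
theorem complete {A : Aut 1 Q} {n : ℕ} (u v : List Bool) (hn : (u ++ v).length = n) (t : ℕ) :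
    ∀ (c : ℕ → Q × ℕ), (∀ s < t, St A (u ++ v) (c s) (c (s + 1))) → (∀ s ≤ t, (c s).2 ≤ n + 1) →
      (c t).1 ∈ A.acc → ∃ l : List Q,
        l.length = ∑ s ∈ range t, (if Xc c u.length s then 1 else 0) ∧
        PL A n u (decide ((c 0).2 ≤ u.length)) (c 0).1 (c 0).2 l ∧
        PR A n u.length v (decide ((c 0).2 ≤ u.length)) (c 0).1 (c 0).2 l := by
  induction t with
  | zero =>
    intro c _ _ ha
    refine ⟨[], by simp, ?_⟩
    by_cases h : (c 0).2 ≤ u.length
    · simp only [h, decide_true]
      exact ⟨⟨c 0, Relation.ReflTransGen.refl, ha⟩, trivial⟩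
    · simp only [h, decide_false]
      exact ⟨trivial, ⟨c 0, Relation.ReflTransGen.refl, ha⟩⟩
  | succ t ih =>
    intro c hs hb ha
    obtain ⟨l, hl, h1, h2⟩ := ih (fun s => c (s + 1)) (fun s hst => hs (s + 1) (by omega))
      (fun s hst => hb (s + 1) (by omega)) ha
    have h0 := hs 0 (by omega)
    have hnear : (c 1).2 ≤ (c 0).2 + 1 ∧ (c 0).2 ≤ (c 1).2 + 1 := by
      obtain ⟨mv, -, h3⟩ := h0
      rw [hn] at h3
      have h4 := newPos_near n (c 0).2 (hb 0 (by omega)) (mv 0)
      rw [← h3] at h4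
      exact h4
    have hl2 : l.length = ∑ s ∈ range t, (if Xc c u.length (s + 1) then 1 else 0) := hl
    by_cases hp0 : (c 0).2 ≤ u.length
    · by_cases hp1 : (c 1).2 ≤ u.length
      · simp only [hp0, decide_true]
        simp only [zero_add, hp1, decide_true] at h1 h2
        refine ⟨l, ?_, ext_left (stL_of_st hn hp0 h0) hp1 h1 h2⟩
        rw [Finset.sum_range_succ', ← hl2]
        have : ¬ Xc c u.length 0 := by
          unfold Xc
          simp only [zero_add]
          omega
        rw [if_neg this, add_zero]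
      · simp only [hp0, decide_true]
        simp only [zero_add, hp1, decide_false] at h1 h2
        have e1 : (c 1).2 = u.length + 1 := by omega
        have e0 : (c 0).2 = u.length := by omega
        refine ⟨(c 1).1 :: l, ?_, ⟨⟨c 0, Relation.ReflTransGen.refl, ?_⟩, ?_⟩, ?_⟩
        · rw [Finset.sum_range_succ', ← hl2]
          have : Xc c u.length 0 := Or.inl ⟨e0, e1⟩
          rw [if_pos this, List.length_cons]
        · have h5 := stL_of_st hn hp0 h0
          rw [← e1]
          exact h5
        · rw [← e1]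
          exact h1
        · show PR A n u.length v false (c 1).1 (u.length + 1) l
          rw [← e1]
          exact h2
    · by_cases hp1 : (c 1).2 ≤ u.length
      · simp only [hp0, decide_false]
        simp only [zero_add, hp1, decide_true] at h1 h2
        have e1 : (c 1).2 = u.length := by omega
        have e0 : (c 0).2 = u.length + 1 := by omega
        refine ⟨(c 1).1 :: l, ?_, ?_, ⟨⟨c 0, Relation.ReflTransGen.refl, ?_⟩, ?_⟩⟩
        · rw [Finset.sum_range_succ', ← hl2]
          have : Xc c u.length 0 := Or.inr ⟨e0, e1⟩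
          rw [if_pos this, List.length_cons]
        · show PL A n u true (c 1).1 u.length l
          rw [e1] at h1
          exact h1
        · have h5 := stR_of_st hn (by omega) h0
          convert h5 using 1
          exact Prod.ext rfl e1.symm
        · convert h2 using 1
          exact e1.symm
      · simp only [hp0, decide_false]
        simp only [zero_add, hp1, decide_false] at h1 h2
        have hp1' : u.length < (c 1).2 := by omega
        refine ⟨l, ?_, ext_right (stR_of_st hn (by omega) h0) hp1' h1 h2⟩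
        rw [Finset.sum_range_succ', ← hl2]
        have : ¬ Xc c u.length 0 := by
          unfold Xc
          simp only [zero_add]
          omega
        rw [if_neg this, add_zero]

/-- A reachable configuration is reached by a sequence of steps. -/
theorem seq_of_rtg {α : Type} {r : α → α → Prop} {a b : α} (h : Relation.ReflTransGen r a b) :
    ∃ (t : ℕ) (c : ℕ → α), c 0 = a ∧ (∀ s < t, r (c s) (c (s + 1))) ∧ c t = b := by
  induction h with
  | refl => exact ⟨0, fun _ => a, rfl, fun s hs => absurd hs (by omega), rfl⟩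
  | @tail b d _ hbd ih =>
    obtain ⟨t, c, h0, h1, h2⟩ := ih
    refine ⟨t + 1, fun s => if s ≤ t then c s else d, ?_, ?_, ?_⟩
    · simp [h0]
    · intro s hs
      rcases Nat.lt_succ_iff_lt_or_eq.1 hs with h | h
      · simp only [h.le, if_true, Nat.succ_le_of_lt h]
        exact h1 s h
      · subst h
        simp only [le_refl, if_true]
        rw [if_neg (by omega), h2]
        exact hbd
    · simp

theorem acc_of_rtg {A : Aut 1 Q} {w : List Bool} {d : Q × ℕ}
    (h : Relation.ReflTransGen (St A w) (A.start, 0) d) (ha : d.1 ∈ A.acc) : A.Acc w := by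
  obtain ⟨t, c, h0, h1, h2⟩ := seq_of_rtg h
  refine ⟨_, t, fun s => ((c s).1, fun _ => (c s).2), ?_, ?_, ?_, le_rfl⟩
  · rw [h0]
  · intro s hs
    obtain ⟨mv, h3, h4⟩ := h1 s hs
    refine ⟨mv, h3, ?_⟩
    funext i
    show (c (s + 1)).2 = newPos w.length (c s).2 (mv i)
    rw [h4, Subsingleton.elim i 0]
  · show (c t).1 ∈ A.acc
    rw [h2]; exact ha

/-- The crossing data of an accepted word. -/
theorem cross_data (A : Aut 1 Q) (w : List Bool) (D : ℕ) (h : A.AccIn w D) :
    ∃ f : ℕ → ℕ, (∀ J : Finset ℕ, ∑ j ∈ J, f j ≤ D) ∧ ∀ j ≤ w.length, ∃ l : List Q,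
      l.length = f j ∧ PL A w.length (w.take j) true A.start 0 l ∧
      PR A w.length j (w.drop j) true A.start 0 l := by
  obtain ⟨t, c0, hc⟩ := h
  set c : ℕ → Q × ℕ := fun s => ((c0 s).1, (c0 s).2 0) with hcdef
  have hc2 : ∀ s, (c0 s).2 = fun _ => (c s).2 := by
    intro s; funext i; rw [Subsingleton.elim i 0]
  have hst : ∀ s < t, St A w (c s) (c (s + 1)) := by
    intro s hs
    obtain ⟨mv, h1, h2⟩ := hc.step s hs
    refine ⟨mv, ?_, ?_⟩
    · rw [hc2 s] at h1; exact h1
    · show (c0 (s + 1)).2 0 = _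
      rw [h2]
  refine ⟨fun j => ∑ s ∈ range t, (if Xc c j s then 1 else 0), ?_, ?_⟩
  · intro J
    rw [Finset.sum_comm]
    have h1 : ∀ s, ∑ j ∈ J, (if Xc c j s then 1 else 0) ≤
        (if (c0 s).2 ≠ (c0 (s + 1)).2 then 1 else 0) := by
      intro s
      rw [← Finset.card_filter]
      by_cases hx : (J.filter (fun j => Xc c j s)).Nonempty
      · obtain ⟨j, hj⟩ := hx
        have hj2 := (Finset.mem_filter.1 hj).2
        have hne : (c0 s).2 ≠ (c0 (s + 1)).2 := by
          intro he
          have h3 : (c s).2 = (c (s + 1)).2 := by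
            show (c0 s).2 0 = (c0 (s + 1)).2 0
            rw [he]
          unfold Xc at hj2
          omega
        rw [if_pos hne]
        apply Finset.card_le_one.2
        intro a ha b hb
        have ha2 := (Finset.mem_filter.1 ha).2
        have hb2 := (Finset.mem_filter.1 hb).2
        unfold Xc at ha2 hb2
        omega
      · rw [Finset.not_nonempty_iff_eq_empty.1 hx]
        simp
    refine (Finset.sum_le_sum fun s _ => h1 s).trans ?_
    rw [← Finset.card_filter]
    have h2 := hc.travel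
    have h3 : {s : ℕ | s < t ∧ (c0 s).2 ≠ (c0 (s + 1)).2} =
        (((range t).filter (fun s => (c0 s).2 ≠ (c0 (s + 1)).2) : Finset ℕ) : Set ℕ) := by
      ext s; simp
    rw [h3, Set.ncard_coe_finset] at h2
    exact h2
  · intro j hj
    have hw : w.take j ++ w.drop j = w := List.take_append_drop j w
    have hlen : (w.take j).length = j := by rw [List.length_take]; omega
    have h4 := complete (A := A) (n := w.length) (w.take j) (w.drop j) (by rw [hw]) t c
      (by rw [hw]; exact hst) (fun s hs => hc.pos_le s hs 0) hc.fin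
    obtain ⟨l, hl, h1, h2⟩ := h4
    have hc0 : c 0 = (A.start, 0) := by
      show ((c0 0).1, (c0 0).2 0) = _
      rw [hc.init]
    rw [hlen] at hl h1 h2
    rw [hc0] at h1 h2
    simp only [Nat.zero_le, decide_true] at h1 h2
    exact ⟨l, hl, h1, h2⟩

end Pool.Agent.PrmO
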