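import Pool.Agent.PrmO.Count

/-!
# MP_5082c5_lc, one input head, nondeterministic: the theorem
-/

namespace Pool.Agent.PrmO

open Finset Pool.Agent.MP_5082c5_lc Pool.Agent.PrmH

/-- The inequality for automata. -/
theorem core1 (k : ℕ) (hk : k = 1) (Q : Type) [Fintype Q] (A : Aut k Q) (n D : ℕ)
    (L : Finset (List Bool)) (hn : 9 ≤ n) (hL0 : L.Nonempty)
    (hL : ∀ u ∈ L, u.length = n ∧ A.AccIn u D)
    (hA : ∀ v : List Bool, v.length = n → A.Acc v → v ∈ PRIMES) :
    Real.log 2 / 24 * (n : ℝ) ^ 2 ≤ 11 * n + 3 * D * Real.log ((Fintype.card Q : ℝ) + 1) +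
      n * Real.log ((2 : ℝ) ^ n / L.card) := by
  subst hk
  set m := n / 12 with hm
  set r := 2 * D / (n - 2 * m) with hr
  have hpos : 0 < n - 2 * m := by omega
  have hk1 : 2 * D ≤ (r + 1) * (n - 2 * m) := by
    have := Nat.lt_mul_div_succ (2 * D) hpos
    rw [mul_comm (r + 1)]
    exact this.le
  have hk2 : r * (n - 2 * m) ≤ 2 * D := Nat.div_mul_le_self _ _
  have h1 := count_all A n m r D le_rfl hn hk1 hA L hL
  have hc0 : (0 : ℝ) < L.card := by exact_mod_cast hL0.card_pos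
  have hq : (0 : ℝ) < (Fintype.card Q : ℝ) + 1 := by positivity
  have h2 := Real.log_le_log hc0 h1
  rw [Real.log_mul (by norm_num) (by positivity), Real.log_mul (by positivity) (by positivity),
    Real.log_pow, Real.log_rpow (by norm_num)] at h2
  have h3 : Real.log ((2 : ℝ) ^ n / L.card) = n * Real.log 2 - Real.log L.card := by
    rw [Real.log_div (by positivity) hc0.ne', Real.log_pow]
  have hnR : (9 : ℝ) ≤ n := by exact_mod_cast hn
  have hm1 : (n : ℝ) ≤ 12 * m + 11 := by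
    have : n ≤ 12 * m + 11 := by omega
    exact_mod_cast this
  have hm2 : (5 : ℝ) * n ≤ 6 * ((n - 2 * m : ℕ) : ℝ) := by
    have : 5 * n ≤ 6 * (n - 2 * m) := by omega
    exact_mod_cast this
  have hk3 : (r : ℝ) * ((n - 2 * m : ℕ) : ℝ) ≤ 2 * D := by exact_mod_cast hk2
  have hk4 : (r : ℝ) * n ≤ 3 * D := by
    have hr0 : (0 : ℝ) ≤ r := Nat.cast_nonneg _
    have hD0 : (0 : ℝ) ≤ D := Nat.cast_nonneg _
    nlinarith [mul_le_mul_of_nonneg_left hm2 hr0]
  set Z := Real.log ((Fintype.card Q : ℝ) + 1) with hZ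
  have hZ0 : 0 ≤ Z := by
    apply Real.log_nonneg
    have : (0 : ℝ) ≤ Fintype.card Q := Nat.cast_nonneg _
    linarith
  have hl2 : Real.log 2 < 0.6931471808 := Real.log_two_lt_d9
  have hl2' : 0.6931471803 < Real.log 2 := Real.log_two_gt_d9
  have hlogL : (m : ℝ) / 2 * Real.log 2 ≤ 10 * Real.log 2 + r * Z + Real.log ((2 : ℝ) ^ n / L.card) := by
    rw [h3]
    nlinarith [h2]
  have h5 : (n : ℝ) * ((m : ℝ) / 2 * Real.log 2) ≤
      n * (10 * Real.log 2 + r * Z + Real.log ((2 : ℝ) ^ n / L.card)) :=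
    mul_le_mul_of_nonneg_left hlogL (by linarith)
  have h6 : (r : ℝ) * n * Z ≤ 3 * D * Z := mul_le_mul_of_nonneg_right hk4 hZ0
  have h7 : (n : ℝ) * Real.log 2 * n ≤ n * Real.log 2 * (12 * m + 11) :=
    mul_le_mul_of_nonneg_left hm1 (by positivity)
  nlinarith [h5, h6, h7]

/-- **One head.** -/
theorem main (M : NTM) (hk : M.k = 1) (hM : ∀ u, Accepts M u → u ∈ PRIMES) :
    ∃ c : ℝ, 0 < c ∧ ∀ (n D S : ℕ) (L : Finset (List Bool)), 3 ≤ n → L.Nonempty →
      (∀ u ∈ L, u.length = n ∧ AcceptsIn M u D S) →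
      c * (n : ℝ) ^ 2 ≤ (D : ℝ) * (S + 1) + n *
        Real.log (({u : List Bool | u ∈ PRIMES ∧ u.length = n}.ncard : ℝ) / L.card) := by
  obtain ⟨C, hC, hcard⟩ := log_card_SQ M
  obtain ⟨C', hC', hprimes⟩ := prime_words
  have hl2 : Real.log 2 < 0.6931471808 := Real.log_two_lt_d9
  have hl2' : 0.6931471803 < Real.log 2 := Real.log_two_gt_d9
  set ε : ℝ := Real.log 2 / (48 * C') with hε
  have hε0 : 0 < ε := by positivity
  set K : ℝ := |Real.log ε| with hK
  have hK0 : 0 ≤ K := abs_nonneg _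
  set B : ℝ := 14 + 3 * C + C' * K with hB
  have hB0 : 14 ≤ B := by
    have : 0 ≤ C' * K := by positivity
    rw [hB]
    nlinarith
  refine ⟨min (Real.log 2 / (48 * B)) (1 / 27), lt_min (by positivity) (by norm_num),
    fun n D S L hn hL hLA => ?_⟩
  obtain ⟨P, hP, hPn, hPl⟩ := hprimes n hn
  have hset : {u : List Bool | u ∈ PRIMES ∧ u.length = n} = (P : Set (List Bool)) := by
    ext u; simp [hP]
  rw [hset, Set.ncard_coe_finset]
  have hLP : L ⊆ P := by
    intro u hu
    exact (hP u).2 ⟨hM u ⟨D, S, (hLA u hu).2⟩, (hLA u hu).1⟩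
  have hL0 : (0 : ℝ) < L.card := by exact_mod_cast hL.card_pos
  have hP0 : (0 : ℝ) < P.card := by exact_mod_cast hPn.card_pos
  have hPL : (L.card : ℝ) ≤ P.card := by exact_mod_cast Finset.card_le_card hLP
  set X := Real.log ((P.card : ℝ) / L.card) with hXdef
  have hX : 0 ≤ X := by
    apply Real.log_nonneg
    rw [le_div_iff₀ hL0]
    linarith
  have hacc : ∀ u ∈ L, u.length = n ∧ (simA M S).AccIn u D :=
    fun u hu => ⟨(hLA u hu).1, accIn_sim M u D S (hLA u hu).2⟩
  have hpr : ∀ v : List Bool, v.length = n → (simA M S).Acc v → v ∈ PRIMES :=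
    fun v _ hv => hM v (accepts_of_sim M v S hv)
  have hnD : n ≤ D := by
    obtain ⟨u, hu⟩ := hL
    exact travel_ge (simA M S) n D hn u (hacc u hu).1 hpr (hacc u hu).2
  have hnR : (3 : ℝ) ≤ n := by exact_mod_cast hn
  have hnDR : (n : ℝ) ≤ D := by exact_mod_cast hnD
  have hS0 : (0 : ℝ) ≤ S := Nat.cast_nonneg _
  have hDS : (D : ℝ) ≤ D * (S + 1) := by nlinarith
  rcases lt_or_ge n 9 with h9 | h9
  · have h1 : min (Real.log 2 / (48 * B)) (1 / 27) * (n : ℝ) ^ 2 ≤ 1 / 27 * (n : ℝ) ^ 2 :=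
      mul_le_mul_of_nonneg_right (min_le_right _ _) (by positivity)
    have h2 : (n : ℝ) ≤ 9 := by exact_mod_cast h9.le
    have h3 : 0 ≤ (n : ℝ) * X := by positivity
    have h4 : 1 / 27 * (n : ℝ) ^ 2 ≤ D := by nlinarith
    linarith
  · have h1 := core1 M.k hk (SQ M S) (simA M S) n D L h9 hL hacc hpr
    have hlogsplit : Real.log ((2 : ℝ) ^ n / L.card) = Real.log ((2 : ℝ) ^ n / P.card) + X := by
      rw [hXdef, ← Real.log_mul (by positivity) (by positivity)]
      congr 1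
      field_simp
    rw [hlogsplit] at h1
    have hq1 : (1 : ℝ) ≤ Fintype.card (SQ M S) := by
      have : 0 < Fintype.card (SQ M S) := Fintype.card_pos_iff.2 ⟨(simA M S).start⟩
      exact_mod_cast this
    have hZ : Real.log ((Fintype.card (SQ M S) : ℝ) + 1) ≤ (C + 1) * (S + 1) := by
      have h2 : Real.log ((Fintype.card (SQ M S) : ℝ) + 1) ≤
          Real.log (2 * Fintype.card (SQ M S)) := by
        apply Real.log_le_log (by linarith)
        linarith
      rw [Real.log_mul (by norm_num) (by linarith)] at h2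
      have h3 := hcard S
      nlinarith
    have hlogn : Real.log n ≤ ε * n + K := by
      have h2 : Real.log (ε * n) ≤ ε * n - 1 := Real.log_le_sub_one_of_pos (by positivity)
      rw [Real.log_mul hε0.ne' (by linarith)] at h2
      have h3 : -Real.log ε ≤ K := neg_le_abs _
      linarith
    have h4 : Real.log ((2 : ℝ) ^ n / P.card) ≤ C' * (ε * n + K) :=
      hPl.trans (mul_le_mul_of_nonneg_left hlogn hC'.le)
    have h5 : C' * ε = Real.log 2 / 48 := by
      rw [hε]; field_simp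
    have h6 : (n : ℝ) * Real.log ((2 : ℝ) ^ n / P.card) ≤
        Real.log 2 / 48 * (n : ℝ) ^ 2 + C' * K * n := by
      have h7 := mul_le_mul_of_nonneg_left h4 (show (0 : ℝ) ≤ n by linarith)
      calc _ ≤ _ := h7
        _ = C' * ε * (n : ℝ) ^ 2 + C' * K * n := by ring
        _ = _ := by rw [h5]
    have h8 : 3 * (D : ℝ) * Real.log ((Fintype.card (SQ M S) : ℝ) + 1) ≤
        3 * (C + 1) * (D * (S + 1)) := by
      have h9 := mul_le_mul_of_nonneg_left hZ (show (0 : ℝ) ≤ 3 * D by positivity)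
      calc _ ≤ _ := h9
        _ = _ := by ring
    have h10 : Real.log 2 / 48 * (n : ℝ) ^ 2 ≤ B * (D * (S + 1)) + n * X := by
      have h11 : C' * K * n ≤ C' * K * (D * (S + 1)) :=
        mul_le_mul_of_nonneg_left (by linarith) (by positivity)
      rw [hB]
      nlinarith [h1, h6, h8, h11]
    have h12 : Real.log 2 / (48 * B) * (n : ℝ) ^ 2 ≤ D * (S + 1) + n * X := by
      have hB1 : (0 : ℝ) < B := by linarith
      have h13 : Real.log 2 / 48 * (n : ℝ) ^ 2 ≤ B * (D * (S + 1) + n * X) := by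
        have h14 : 0 ≤ (n : ℝ) * X := by positivity
        nlinarith
      have h15 : Real.log 2 / (48 * B) * (n : ℝ) ^ 2 = (Real.log 2 / 48 * (n : ℝ) ^ 2) / B := by
        field_simp
      rw [h15, div_le_iff₀ hB1]
      linarith
    have h16 : min (Real.log 2 / (48 * B)) (1 / 27) * (n : ℝ) ^ 2 ≤
        Real.log 2 / (48 * B) * (n : ℝ) ^ 2 :=
      mul_le_mul_of_nonneg_right (min_le_left _ _) (by positivity)
    linarith

end Pool.Agent.PrmO
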