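import Pool.Agent.PrmO.Main

/-!
# MP_5082c5_lc, one input head, nondeterministic: the product (head moves) · (space)
-/

namespace Pool.Agent.PrmO

open Finset Pool.Agent.MP_5082c5_lc Pool.Agent.PrmH

/-- From `main` by the pigeonhole principle: the pairs `(D, S)` with `D (S + 1) < n²` are at most
`n⁴` many. -/
theorem main_prod (M : NTM) (hk : M.k = 1) (hM : ∀ u, Accepts M u → u ∈ PRIMES) :
    ∃ c : ℝ, 0 < c ∧ ∀ (n K : ℕ) (L : Finset (List Bool)), 3 ≤ n → L.Nonempty →
      (∀ u ∈ L, u.length = n ∧ ∃ D S, AcceptsIn M u D S ∧ D * (S + 1) ≤ K) →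
      c * (n : ℝ) ^ 2 ≤ K + n *
        Real.log (({u : List Bool | u ∈ PRIMES ∧ u.length = n}.ncard : ℝ) / L.card) := by
  classical
  obtain ⟨c, hc, hmain⟩ := main M hk hM
  set ε : ℝ := c / 8 with hε
  have hε0 : 0 < ε := by positivity
  set K0 : ℝ := |Real.log ε| with hK0
  have hK00 : 0 ≤ K0 := abs_nonneg _
  set B : ℝ := 1 + 4 * K0 with hB
  have hB1 : 1 ≤ B := by rw [hB]; linarith
  refine ⟨min (c / (2 * B)) 1, lt_min (by positivity) (by norm_num),
    fun n K L hn hL hLA => ?_⟩
  obtain ⟨C', hC', hprimes⟩ := prime_words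
  obtain ⟨P, hP, hPn, hPl⟩ := hprimes n hn
  have hset : {u : List Bool | u ∈ PRIMES ∧ u.length = n} = (P : Set (List Bool)) := by
    ext u; simp [hP]
  rw [hset, Set.ncard_coe_finset]
  have hLP : L ⊆ P := by
    intro u hu
    obtain ⟨hu1, D, S, hDS, -⟩ := hLA u hu
    exact (hP u).2 ⟨hM u ⟨D, S, hDS⟩, hu1⟩
  have hL0 : (0 : ℝ) < L.card := by exact_mod_cast hL.card_pos
  have hP0 : (0 : ℝ) < P.card := by exact_mod_cast hPn.card_pos
  have hPL : (L.card : ℝ) ≤ P.card := by exact_mod_cast Finset.card_le_card hLP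
  set X := Real.log ((P.card : ℝ) / L.card) with hXdef
  have hX : 0 ≤ X := by
    apply Real.log_nonneg
    rw [le_div_iff₀ hL0]
    linarith
  have hnR : (3 : ℝ) ≤ n := by exact_mod_cast hn
  have hnX : 0 ≤ (n : ℝ) * X := by positivity
  rcases le_or_gt (n ^ 2) K with hKn | hKn
  · have h1 : min (c / (2 * B)) 1 * (n : ℝ) ^ 2 ≤ 1 * (n : ℝ) ^ 2 :=
      mul_le_mul_of_nonneg_right (min_le_right _ _) (by positivity)
    have h2 : (n : ℝ) ^ 2 ≤ K := by exact_mod_cast hKn
    linarith
  · -- all pairs are small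
    choose! D S hDS using fun u hu => (hLA u hu).2
    have hmaps : ∀ u ∈ L, (D u, S u) ∈ (range (n ^ 2) ×ˢ range (n ^ 2)) := by
      intro u hu
      obtain ⟨h1, h2⟩ := hDS u hu
      have hn' : n ≤ D u := by
        exact travel_ge (simA M (S u)) n (D u) hn u (hLA u hu).1
          (fun v _ hv => hM v (accepts_of_sim M v (S u) hv)) (accIn_sim M u (D u) (S u) h1)
      have h3 : D u ≤ D u * (S u + 1) := Nat.le_mul_of_pos_right _ (by omega)
      have h4 : S u + 1 ≤ D u * (S u + 1) := Nat.le_mul_of_pos_left _ (by omega)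
      rw [Finset.mem_product, Finset.mem_range, Finset.mem_range]
      exact ⟨by show D u < n ^ 2; omega, by show S u < n ^ 2; omega⟩
    have hne : (range (n ^ 2) ×ˢ range (n ^ 2)).Nonempty := by
      obtain ⟨u, hu⟩ := hL
      exact ⟨_, hmaps u hu⟩
    obtain ⟨⟨d, s⟩, hds, hbig⟩ : ∃ y ∈ (range (n ^ 2) ×ˢ range (n ^ 2)),
        L.card ≤ (range (n ^ 2) ×ˢ range (n ^ 2)).card * (L.filter (fun u => (D u, S u) = y)).card := by
      by_contra hcon
      push Not at hcon
      have h1 := Finset.card_eq_sum_card_fiberwise hmaps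
      have h2 : ∑ y ∈ (range (n ^ 2) ×ˢ range (n ^ 2)), (range (n ^ 2) ×ˢ range (n ^ 2)).card *
          (L.filter (fun u => (D u, S u) = y)).card <
          ∑ y ∈ (range (n ^ 2) ×ˢ range (n ^ 2)), L.card :=
        Finset.sum_lt_sum_of_nonempty hne hcon
      rw [← Finset.mul_sum, ← h1, Finset.sum_const, smul_eq_mul] at h2
      exact lt_irrefl _ h2
    set L' := L.filter (fun u => (D u, S u) = (d, s)) with hL'
    have hL'0 : L'.Nonempty := by
      rw [← Finset.card_pos]
      rcases Nat.eq_zero_or_pos L'.card with h | h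
      · rw [h, mul_zero] at hbig
        have := hL.card_pos
        omega
      · exact h
    have hL'c : (0 : ℝ) < L'.card := by exact_mod_cast hL'0.card_pos
    have hmemL' : ∀ u ∈ L', u ∈ L ∧ D u = d ∧ S u = s := by
      intro u hu
      obtain ⟨h1, h2⟩ := Finset.mem_filter.1 hu
      exact ⟨h1, (Prod.ext_iff.1 h2).1, (Prod.ext_iff.1 h2).2⟩
    have h1 := hmain n d s L' hn hL'0 (by
      intro u hu
      obtain ⟨h2, h3, h4⟩ := hmemL' u hu
      refine ⟨(hLA u h2).1, ?_⟩
      rw [← h3, ← h4]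
      exact (hDS u h2).1)
    rw [hset, Set.ncard_coe_finset] at h1
    have hdK : (d : ℝ) * (s + 1) ≤ K := by
      obtain ⟨u, hu⟩ := hL'0
      obtain ⟨h2, h3, h4⟩ := hmemL' u hu
      have := (hDS u h2).2
      rw [h3, h4] at this
      exact_mod_cast this
    have hnK : (n : ℝ) ≤ K := by
      obtain ⟨u, hu⟩ := hL
      obtain ⟨h2, h3⟩ := hDS u hu
      have hn' : n ≤ D u := by
        exact travel_ge (simA M (S u)) n (D u) hn u (hLA u hu).1
          (fun v _ hv => hM v (accepts_of_sim M v (S u) hv)) (accIn_sim M u (D u) (S u) h2)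
      have h4 : D u ≤ D u * (S u + 1) := Nat.le_mul_of_pos_right _ (by omega)
      have : n ≤ K := by omega
      exact_mod_cast this
    have hcardR : (L.card : ℝ) ≤ (n : ℝ) ^ 4 * L'.card := by
      rw [Finset.card_product, Finset.card_range] at hbig
      have : L.card ≤ n ^ 4 * L'.card := by
        calc L.card ≤ n ^ 2 * n ^ 2 * L'.card := hbig
          _ = n ^ 4 * L'.card := by ring
      exact_mod_cast this
    have hlog : Real.log ((P.card : ℝ) / L'.card) ≤ X + 4 * Real.log n := by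
      have h2 : (P.card : ℝ) / L'.card ≤ (P.card : ℝ) / L.card * (n : ℝ) ^ 4 := by
        rw [div_mul_eq_mul_div, div_le_div_iff₀ hL'c hL0]
        calc (P.card : ℝ) * L.card ≤ P.card * ((n : ℝ) ^ 4 * L'.card) :=
              mul_le_mul_of_nonneg_left hcardR hP0.le
          _ = _ := by ring
      have h3 := Real.log_le_log (by positivity) h2
      rw [Real.log_mul (by positivity) (by positivity), Real.log_pow] at h3
      push_cast at h3
      exact h3
    have hlogn : Real.log n ≤ ε * n + K0 := by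
      have h2 : Real.log (ε * n) ≤ ε * n - 1 := Real.log_le_sub_one_of_pos (by positivity)
      rw [Real.log_mul hε0.ne' (by linarith)] at h2
      have h3 : -Real.log ε ≤ K0 := neg_le_abs _
      linarith
    have h5 : (n : ℝ) * Real.log ((P.card : ℝ) / L'.card) ≤
        n * X + 4 * ε * (n : ℝ) ^ 2 + 4 * K0 * n := by
      have h6 : Real.log ((P.card : ℝ) / L'.card) ≤ X + 4 * (ε * n + K0) := by linarith
      calc _ ≤ (n : ℝ) * (X + 4 * (ε * n + K0)) :=
            mul_le_mul_of_nonneg_left h6 (by linarith)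
        _ = _ := by ring
    have h7 : c / 2 * (n : ℝ) ^ 2 ≤ B * K + n * X := by
      have h8 : 4 * K0 * n ≤ 4 * K0 * K := mul_le_mul_of_nonneg_left hnK (by positivity)
      rw [hB]
      rw [hε] at h5
      nlinarith [h1, h5, h8, hdK]
    have h9 : c / (2 * B) * (n : ℝ) ^ 2 ≤ K + n * X := by
      have hB0 : (0 : ℝ) < B := by linarith
      have h13 : c / 2 * (n : ℝ) ^ 2 ≤ B * (K + n * X) := by nlinarith
      have h15 : c / (2 * B) * (n : ℝ) ^ 2 = (c / 2 * (n : ℝ) ^ 2) / B := by
        field_simp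
      rw [h15, div_le_iff₀ hB0]
      linarith
    have h16 : min (c / (2 * B)) 1 * (n : ℝ) ^ 2 ≤ c / (2 * B) * (n : ℝ) ^ 2 :=
      mul_le_mul_of_nonneg_right (min_le_left _ _) (by positivity)
    linarith

end Pool.Agent.PrmO
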